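import Mathlib
import Pool.Agent.Lib.MP_226de1_co.E.DiscDone
import Pool.Agent.Lib.MP_226de1_co.E.HalfDone
import Pool.Agent.Lib.MP_226de1_co.K.GeoEmb
import Pool.Agent.Lib.MP_226de1_co.Sw.Final

/-! No convex body in `ℝ^d`, `d ≥ 2`, has two distinct `k`-equipower points, for every real
exponent `k ≥ 1`. -/

set_option autoImplicit false

namespace Pool.Agent.Results.MP_226de1_co.AllExponents

/-- For every real `k ≥ 1` and every `d ≥ 2` no compact convex set `K ⊆ ℝ^d` has two distinct interior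
points `p` such that `|p-x|^k + |p-y|^k` is constant over all pairs of distinct boundary points `x`, `y`
with `p ∈ [x,y]`. -/
theorem result (k : ℝ) (hk : 1 ≤ k) (d : ℕ) (hd : 2 ≤ d)
    (K : Set (EuclideanSpace ℝ (Fin d))) (hc : Convex ℝ K) (hK : IsCompact K) :
    ¬ ∃ p q : EuclideanSpace ℝ (Fin d), p ≠ q ∧ p ∈ interior K ∧ q ∈ interior K ∧
      (∃ c : ℝ, ∀ x ∈ frontier K, ∀ y ∈ frontier K, x ≠ y → p ∈ segment ℝ x y →
        dist p x ^ k + dist p y ^ k = c) ∧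
      (∃ c : ℝ, ∀ x ∈ frontier K, ∀ y ∈ frontier K, x ≠ y → q ∈ segment ℝ x y →
        dist q x ^ k + dist q y ^ k = c) := by
  rintro ⟨p, q, hpq, hp, hq, ⟨c₁, h₁⟩, ⟨c₂, h₂⟩⟩
  obtain ⟨φ₀, hφ₀, hφp₀, hφq₀⟩ := EQK.exists_embedding hd hpq
  -- the plane
  obtain ⟨e, he⟩ : ∃ e : EuclideanSpace ℝ (Fin 2) ≃ₗᵢ[ℝ] ℂ, e = Complex.orthonormalBasisOneI.repr.symm :=
    ⟨_, rfl⟩
  obtain ⟨φ, hφe⟩ : ∃ φ : EuclideanSpace ℝ (Fin 2) →ᵃ[ℝ] EuclideanSpace ℝ (Fin d), ∀ x, φ x = φ₀ (e x) :=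
    ⟨φ₀.comp e.toLinearEquiv.toLinearMap.toAffineMap, fun _ => rfl⟩
  have hφ : Isometry φ := by
    have : (φ : EuclideanSpace ℝ (Fin 2) → EuclideanSpace ℝ (Fin d)) = φ₀ ∘ e := funext hφe
    rw [this]
    exact hφ₀.comp e.isometry
  obtain ⟨P, hP⟩ : ∃ P : EuclideanSpace ℝ (Fin 2), φ P = p :=
    ⟨e.symm ((-(dist p q / 2) : ℝ) : ℂ), by rw [hφe, e.apply_symm_apply, hφp₀]⟩
  obtain ⟨Q, hQ⟩ : ∃ Q : EuclideanSpace ℝ (Fin 2), φ Q = q :=
    ⟨e.symm ((dist p q / 2 : ℝ) : ℂ), by rw [hφe, e.apply_symm_apply, hφq₀]⟩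
  have hcont : Continuous φ := hφ.continuous
  have hseg : ∀ w x y : EuclideanSpace ℝ (Fin 2), w ∈ segment ℝ x y → φ w ∈ segment ℝ (φ x) (φ y) := by
    intro w x y hw
    rw [← image_segment]
    exact Set.mem_image_of_mem _ hw
  have hPi : P ∈ interior (φ ⁻¹' K) := by
    apply preimage_interior_subset_interior_preimage hcont
    show φ _ ∈ interior K
    rw [hP]
    exact hp
  have hQi : Q ∈ interior (φ ⁻¹' K) := by
    apply preimage_interior_subset_interior_preimage hcont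
    show φ _ ∈ interior K
    rw [hQ]
    exact hq
  refine EQW.frozen_of_exits EQS.exitDisc8 EQS.exitHalf8 k hk (φ ⁻¹' K) (hc.affine_preimage φ)
    (hφ.isClosedEmbedding.isCompact_preimage hK) ⟨P, hPi⟩ ⟨P, Q, ?_, hPi, hQi, ⟨c₁, ?_⟩, ⟨c₂, ?_⟩⟩
  · rintro rfl
    exact hpq (hP.symm.trans hQ)
  · intro x hx y hy hxy hs
    have h := h₁ (φ x) (hcont.frontier_preimage_subset K hx) (φ y)
      (hcont.frontier_preimage_subset K hy) (hφ.injective.ne hxy) (by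
        have := hseg _ _ _ hs
        rwa [hP] at this)
    rw [← hP, hφ.dist_eq, hφ.dist_eq] at h
    exact h
  · intro x hx y hy hxy hs
    have h := h₂ (φ x) (hcont.frontier_preimage_subset K hx) (φ y)
      (hcont.frontier_preimage_subset K hy) (hφ.injective.ne hxy) (by
        have := hseg _ _ _ hs
        rwa [hQ] at this)
    rw [← hQ, hφ.dist_eq, hφ.dist_eq] at h
    exact h

end Pool.Agent.Results.MP_226de1_co.AllExponents
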